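import Mathlib
import Pool.Agent.Work.MP_38bc51_pr.HC.Main

/-!
# The critical density of `k`-dependent hard-core processes: bounds for all `k` and the limit of
`2 k (1 / 2 - p_k)`
-/

namespace Pool.Agent.Results.MP_38bc51_pr.Asymptotics

open Filter HC38bc51

theorem result :
    (∀ k : ℕ, 2 ≤ k → (k : ℝ) / (2 * ((k : ℝ) + 1)) < pcrit k) ∧
    (∀ k : ℕ, 2 ≤ k → Even k → 1 / 2 - (3 - 2 / √3) / (4 * ((k : ℝ) + 1)) ≤ pcrit k) ∧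
    (∀ k : ℕ, 2 ≤ k → Odd k →
      1 / 2 - (3 - 2 / √3 + 2 / (3 * √3 * k)) / (4 * ((k : ℝ) + 1)) ≤ pcrit k) ∧
    (∀ k : ℕ, 1 ≤ k → pcrit k ≤ 1 / 2 - (2 - √2) / (2 * (k : ℝ) + 5)) ∧
    ∃ L : ℝ, Tendsto (fun k : ℕ => 2 * (k : ℝ) * (1 / 2 - pcrit k)) atTop (nhds L) ∧
      (∀ k : ℕ, 1 ≤ k → 1 / 2 - L / (2 * (k : ℝ)) ≤ pcrit k) ∧ 2 - √2 ≤ L ∧
      L ≤ 3 / 2 - 1 / √3 :=
  HC38bc51.HC.main

end Pool.Agent.Results.MP_38bc51_pr.Asymptotics
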