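import Mathlib
import Pool.Agent.Work.MP_38bc51_pr.FF.Main

/-!
# The limit of `2 k (1 / 2 - p_k)`: the problem of sign changes, a lower and an upper bound
-/

namespace Pool.Agent.Results.MP_38bc51_pr.LimitConstant

open Filter MeasureTheory HC38bc51 HC38bc51.HC
open scoped RealInnerProductSpace

theorem result : ∃ L : ℝ,
    Tendsto (fun k : ℕ => 2 * (k : ℝ) * (1 / 2 - pcrit k)) atTop (nhds L) ∧
    2 / 3 < L ∧ L < 39 / 50 ∧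
    (∀ᶠ k : ℕ in atTop, pcrit k < 1 / 2 - 1 / (3 * (k : ℝ))) ∧
    (∀ k : ℕ, 1 ≤ k → 1 / 2 - 39 / (100 * k) < pcrit k) ∧
    (∀ m : ℕ, 1 ≤ m → (∃ Q : Measure (ℤ → Bool), SignLaw m Q ∧ (m : ℝ) * chg Q ≤ L) ∧
      ∀ Q : Measure (ℤ → Bool), SignLaw m Q → L * (1 - chg Q) ≤ m * chg Q) ∧
    ∀ (n : ℕ) (R : EuclideanSpace ℝ (Fin n) ≃ₗᵢ[ℝ] EuclideanSpace ℝ (Fin n))
      (u : EuclideanSpace ℝ (Fin n)) (γ : ℝ) (y : ℕ → ℝ), ‖u‖ = 1 → |γ| ≤ 1 →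
      (∀ j ≤ n, y j = ⟪u, R^[j + 1] u⟫ -
        (1 - γ) * ∑ i ∈ Finset.range j, y i * ⟪u, R^[j - i] u⟫) →
      ∃ Q : Measure (ℤ → Bool), SignLaw (n + 1) Q ∧ chg Q = (1 - (1 - γ ^ 2) * y n) / 2 :=
  HC38bc51.FF.main

end Pool.Agent.Results.MP_38bc51_pr.LimitConstant
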