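import Mathlib
import Pool.Agent.Work.MP_38bc51_pr.Law
import Pool.Agent.Work.MP_38bc51_pr.Cert5

/-!
# `p_2` is not `1/3`

There is a stationary 2-dependent hard-core process with one-vertex marginal `9/25 > 1/3`.
-/

namespace Pool.Agent.Results.MP_38bc51_pr.NotOneThird

open MeasureTheory HC38bc51

theorem result : 9 / 25 ≤ pcrit 2 := by
  obtain ⟨P, hP, h⟩ := exists_process Dtwo (st_nonneg cert5_ok)
  rw [Dtwo_marginal] at h
  refine le_csSup ⟨1, ?_⟩ ⟨ℤ → Bool, inferInstance, P, fun i x => x i, hP, h.symm⟩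
  rintro p ⟨Ω, i, P', X, h', rfl⟩
  have := h'.prob
  exact measureReal_le_one

end Pool.Agent.Results.MP_38bc51_pr.NotOneThird
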