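import Mathlib
import Pool.Agent.Work.MP_38bc51_pr.FF.Small

/-!
# Bounds for `p_2, ..., p_6`
-/

namespace Pool.Agent.Results.MP_38bc51_pr.SmallK

open HC38bc51

theorem result : (∀ k : ℕ, 2 ≤ k → k ≤ 6 → pcrit k ≤ 1 / 2 - 3 / (9 * (k : ℝ) + 4)) ∧
    (3894 : ℝ) / 10000 < pcrit 3 ∧ (4137 : ℝ) / 10000 < pcrit 4 ∧
    (4293 : ℝ) / 10000 < pcrit 5 ∧ (4401 : ℝ) / 10000 < pcrit 6 :=
  HC38bc51.FF.small

end Pool.Agent.Results.MP_38bc51_pr.SmallK
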